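import Pool.Agent.K6.H3.MW.Defs
import Pool.Agent.H622R2.CoNP
import Pool.Agent.H620R2.Gauge.A1

/-! Codes of instances; oracles which refer to themselves -/

set_option autoImplicit false

namespace Pool.Agent.K6.H3.MW

open Pool.Agent.NPC Pool.Agent.H620R2.Gauge Pool.Agent.TH678.SQ Pool.Agent.H622R2

/-- number of the problem, instance, parameter -/
abbrev Ins := ℕ × List Bool × ℕ

variable (h : ℕ → ℕ → ℕ)

/-- the length of the code of the answer -/
def ell (I : Ins) : ℕ := h I.1 I.2.2 * (Nat.log 2 I.2.1.length + 1) + 3

/-- the number `i` as a string of length `L` -/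
def tag (L i : ℕ) : List Bool := List.replicate i true ++ List.replicate (L - i) false

theorem length_tag {L i : ℕ} (hi : i ≤ L) : (tag L i).length = L := by
  unfold tag
  rw [List.length_append, List.length_replicate, List.length_replicate]
  omega

theorem tag_inj {L i j : ℕ} (h : tag L i = tag L j) : i = j := by
  have h1 := congrArg (List.count true) h
  unfold tag at h1
  rw [List.count_append, List.count_append, List.count_replicate_self,
    List.count_replicate_self, List.count_replicate, List.count_replicate] at h1
  simpa using h1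

/-- the question for bit number `i` of the code of the answer -/
def cs (I : Ins) (i : ℕ) : List Bool :=
  true :: pairBits (List.replicate I.1 true) (pairBits (List.replicate I.2.2 true)
    (pairBits (tag (ell h I) i) I.2.1))

theorem cs_inj {I J : Ins} {i j : ℕ} (hij : cs h I i = cs h J j) : I = J ∧ i = j := by
  unfold cs at hij
  have h1 := congrArg unpair (List.cons.inj hij).2
  rw [unpair_pairBits, unpair_pairBits, Prod.mk.injEq] at h1
  obtain ⟨h1, h2⟩ := h1
  have h3 := congrArg unpair h2
  rw [unpair_pairBits, unpair_pairBits, Prod.mk.injEq] at h3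
  obtain ⟨h3, h4⟩ := h3
  have h5 := congrArg unpair h4
  rw [unpair_pairBits, unpair_pairBits, Prod.mk.injEq] at h5
  obtain ⟨h5, h6⟩ := h5
  have e1 : I.1 = J.1 := by simpa using congrArg List.length h1
  have e2 : I.2.2 = J.2.2 := by simpa using congrArg List.length h3
  have e3 : I = J := Prod.ext e1 (Prod.ext h6 e2)
  subst e3
  exact ⟨rfl, tag_inj h5⟩

/-- the length of the questions for the code of the answer -/
def lam (I : Ins) : ℕ := (cs h I 0).length

theorem lam_eq (I : Ins) : lam h I = 2 * I.1 + 2 * I.2.2 + 2 * ell h I + I.2.1.length + 4 := by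
  unfold lam cs
  rw [List.length_cons, length_pairBits, length_pairBits, length_pairBits,
    length_tag (Nat.zero_le _), List.length_replicate, List.length_replicate]
  ring

theorem length_cs {I : Ins} {i : ℕ} (hi : i ≤ ell h I) : (cs h I i).length = lam h I := by
  rw [lam_eq]
  unfold cs
  rw [List.length_cons, length_pairBits, length_pairBits, length_pairBits,
    length_tag hi, List.length_replicate, List.length_replicate]
  ring

theorem ell_lt_lam (I : Ins) : 2 * ell h I + 1 < lam h I := by
  rw [lam_eq]
  omega

/-- the status of a string -/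
def Yes (A : Oracle) (z : List Bool) : Prop :=
  ∃ u : List Bool, u.length = z.length ∧ A (false :: (z ++ u)) = true

theorem yes_congr {A B : Oracle} {z : List Bool}
    (hAB : ∀ q : List Bool, q.length = 2 * z.length + 1 → A q = B q) : Yes A z ↔ Yes B z := by
  unfold Yes
  refine exists_congr fun u => and_congr_right fun hu => ?_
  rw [hAB _ (by rw [List.length_cons, List.length_append, hu]; ring)]

/-- the code of the answer -/
def code (A : Oracle) (I : Ins) : List Bool := (List.range (ell h I)).map fun i => A (cs h I i)

theorem length_code (A : Oracle) (I : Ins) : (code h A I).length = ell h I := by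
  unfold code
  simp

/-- the oracle on the strings of length less than `m` -/
def cut (B : Oracle) (m : ℕ) : Oracle := fun z => if z.length < m then B z else false

/-- the approximations -/
def appr (F : List Bool → Oracle → Bool) : ℕ → Oracle
  | 0 => fun _ => false
  | m + 1 => fun z => if z.length = m then F z (appr F m) else appr F m z

theorem appr_high (F : List Bool → Oracle → Bool) : ∀ (m : ℕ) (z : List Bool), m ≤ z.length →
    appr F m z = false
  | 0, _, _ => rfl
  | m + 1, z, h => by
    simp only [appr]
    rw [if_neg (by omega)]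
    exact appr_high F m z (by omega)

theorem appr_low (F : List Bool → Oracle → Bool) : ∀ (m : ℕ) (z : List Bool), z.length < m →
    appr F m z = F z (appr F z.length)
  | 0, _, h => absurd h (Nat.not_lt_zero _)
  | m + 1, z, h => by
    simp only [appr]
    by_cases he : z.length = m
    · rw [if_pos he, he]
    · rw [if_neg he]
      exact appr_low F m z (by omega)

/-- There is an oracle which is given by its values on the shorter strings. -/
theorem exists_self (F : List Bool → Oracle → Bool) :
    ∃ B : Oracle, ∀ z, B z = F z (cut B z.length) := by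
  refine ⟨fun z => F z (appr F z.length), fun z => ?_⟩
  have e : cut (fun z => F z (appr F z.length)) z.length = appr F z.length := by
    funext y
    unfold cut
    by_cases h : y.length < z.length
    · rw [if_pos h, appr_low F _ y h]
    · rw [if_neg h, appr_high F _ y (not_lt.1 h)]
  rw [e]

variable (Q : ℕ → Oracle → Set (List Bool × ℕ))

/-- the answer -/
def Tr (A : Oracle) (I : Ins) : Prop := I.2 ∈ Q I.1 A

theorem tr_congr {h : ℕ → ℕ → ℕ} {Q : ℕ → Oracle → Set (List Bool × ℕ)}
    (hQ : ∀ e, Short (h e) (Q e)) {A B : Oracle} {I : Ins}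
    (hAB : ∀ q : List Bool, q.length < ell h I → A q = B q) : Tr Q A I ↔ Tr Q B I := by
  refine hQ I.1 A B I.2.1 I.2.2 fun q hq => hAB q ?_
  unfold ell
  omega

open Classical in
/-- some member of the set -/
noncomputable def pickS (s : Set (List Bool)) : List Bool := if h : s.Nonempty then h.choose else []

theorem pickS_mem {s : Set (List Bool)} (h : s.Nonempty) : pickS s ∈ s := by
  unfold pickS
  rw [dif_pos h]
  exact h.choose_spec

/-- the strings of length `ℓ` whose status is `P` -/
def cand (A : Oracle) (ℓ : ℕ) (P : Prop) : Set (List Bool) :=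
  {z | z.length = ℓ ∧ (Yes A z ↔ P)}

theorem cand_congr {A B : Oracle} {ℓ : ℕ} {P P' : Prop}
    (hAB : ∀ q : List Bool, q.length = 2 * ℓ + 1 → A q = B q) (hP : P ↔ P') :
    cand A ℓ P = cand B ℓ P' := by
  ext z
  unfold cand
  simp only [Set.mem_ofPred_eq]
  refine and_congr_right fun hz => ?_
  rw [yes_congr (A := A) (B := B) (fun q hq => hAB q (by rw [hq, hz])), hP]

/-- Both statuses are possible for strings of length `ℓ`. -/
def Both (A : Oracle) (ℓ : ℕ) : Prop := ∀ P : Prop, (cand A ℓ P).Nonempty

/-- the oracle is right up to the length `L` -/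
structure Good (L : ℕ) (A : Oracle) : Prop where
  both : ∀ ℓ, 3 ≤ ℓ → 2 * ℓ + 1 ≤ L → Both A ℓ
  right : ∀ I : Ins, lam h I ≤ L → (Yes A (code h A I) ↔ Tr Q A I)

theorem both_congr {A B : Oracle} {ℓ : ℕ}
    (hAB : ∀ q : List Bool, q.length = 2 * ℓ + 1 → A q = B q) (hA : Both A ℓ) : Both B ℓ := by
  intro P
  rw [← cand_congr hAB (Iff.refl P)]
  exact hA P

theorem code_congr {A B : Oracle} {I : Ins}
    (hAB : ∀ q : List Bool, q.length = lam h I → A q = B q) : code h A I = code h B I := by
  unfold code
  refine List.map_congr_left fun i hi => hAB _ ?_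
  exact length_cs h (List.mem_range.1 hi).le

theorem good_congr {h : ℕ → ℕ → ℕ} {Q : ℕ → Oracle → Set (List Bool × ℕ)}
    (hQ : ∀ e, Short (h e) (Q e)) {L : ℕ} {A B : Oracle}
    (hAB : ∀ q : List Bool, q.length ≤ L → A q = B q) (hA : Good h Q L A) : Good h Q L B := by
  refine ⟨fun ℓ h3 hL => both_congr (fun q hq => hAB q (hq.trans_le hL)) (hA.both ℓ h3 hL),
    fun I hI => ?_⟩
  have h1 := ell_lt_lam h I
  rw [← code_congr h fun q hq => hAB q (hq.trans_le hI),
    ← yes_congr (A := A) (fun q hq => hAB q (by rw [hq, length_code]; omega)),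
    hA.right I hI]
  exact tr_congr hQ fun q hq => hAB q (by omega)

end Pool.Agent.K6.H3.MW
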