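import Pool.Agent.K6.H3.MW.Final

/-!
# An oracle with `FPT ≠ W[1] ⊆ M[1]`, where `M[1]` contains all levels of the hierarchies

The starting files contain oracles with `M[1] ≠ W[1]`, and oracles with `W[1] = FPT`, relative to
which trivially `W[1] ⊆ M[1]`. Here is an oracle `O` relative to which `W[1]` is contained in `M[1]`
although `W[1] ≠ FPT`.

* `InM1` is `M[1]` in a narrow form: after an fpt-reduction to a string `z` of `h k * (log |x| + 1)`
  bits, the answer is whether `false :: (z ++ u)` is in the oracle for some `u` as long as `z`.
* `InW1` is `W[1]`: the closure under fpt-reductions (which may ask long questions) of the `k`-step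
  halting problems `kHaltS e` of nondeterministic Turing machines whose questions to the oracle have
  at most `(e + 2) k (log |x| + 1)` bits.
* Also the model-checking problem `sents e` for first-order sentences with any number of quantifier
  alternations (without oracle complete for `AW[*]`, which contains all classes `W[t]` and `A[t]`),
  with atoms that ask questions of `e k (log |x| + 1)` bits, is in `M[1]`.
* More generally, for every given sequence `Q` of parameterized problems depending on the oracle
  whose answers depend only on questions of `h k * (log |x| + 1)` bits, `h` computable, there is such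
  an oracle relative to which all of them are in `M[1]`.
* The halting problems are not in `FPT`, not even nonuniformly (`ParaAny`), and the `k`-th slice is
  not decided by algorithms which ask at most `(n + 2) ^ (k - 2)` questions, even with advice `σ`.

Proof. The oracle contains for every instance `(e, x, k)` the bits of a string `z` whose status
(whether `false :: (z ++ u)` is in the oracle for some `u`) is the answer. An algorithm which
asks `T` questions can find out the status of strings of length `O(log T)` only, and the answers that
are encoded by them depend only on even shorter parts of the oracle. All longer codes look like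
fresh random strings to it.
-/

set_option autoImplicit false

namespace Pool.Agent.K6.H3.MW.CollapseToMOne

open Pool.Agent.NPC Pool.Agent.H620R2.Gauge Pool.Agent.TH678.SQ Pool.Agent.K6.H3.MW
open Pool.Agent.TH678.WP (ParaAny)

theorem result (Q : ℕ → Oracle → Set (List Bool × ℕ)) (h : ℕ → ℕ → ℕ)
    (hh : ∀ e, Computable (h e)) (hQ : ∀ e, Short (h e) (Q e)) :
    ∃ O : Oracle, (∀ P, InW1 O P → InM1 O P) ∧ (∀ e, InM1 O (sents e O)) ∧
      (∀ e, InM1 O (Q e O)) ∧ ∀ e, InW1 O (kHaltS e O) ∧ ¬ ParaAny (IsP O) (kHaltS e O) ∧
        ∀ (M : Alg) (c k : ℕ) (σ : List Bool), (∀ n, M.p.eval n ≤ (n + 2) ^ c) → c + 2 ≤ k →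
          ∃ x : List Bool, ¬ ((x, k) ∈ kHaltS e O ↔ M.out O (pairBits σ x) = some [true]) :=
  main Q h hh hQ

end Pool.Agent.K6.H3.MW.CollapseToMOne
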