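import Pool.Agent.TH678.WP.Defs
import Pool.Agent.TH678.SQ.Defs

/-!
# The class `M[1]` relative to an oracle, in a narrow form
-/

set_option autoImplicit false

namespace Pool.Agent.K6.H3.MW

open Pool.Agent.NPC Pool.Agent.H620R2.Gauge Pool.Agent.TH678.SQ

/-- The class `M[1]` relative to `A`, in a narrow form: by a transformation `R`, computable in time
`f k * poly |x|` relative to `A`, the instance `(x, k)` becomes a string `z` of at most
`h k * (log |x| + 1)` bits, and the answer is whether `false :: (z ++ u)` is in the oracle for some
string `u` which is as long as `z` (one atomic formula with one oracle question about `h k * log |x|`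
propositional variables). -/
def InM1 (A : Oracle) (Q : Set (List Bool × ℕ)) : Prop :=
  ∃ (π : ℕ → List Bool) (h : ℕ → ℕ) (R : List Bool → List Bool), Computable π ∧ Computable h ∧
    IsFP A R ∧ ∀ x k,
      (R (pairBits (π k) x)).length ≤ h k * (Nat.log 2 x.length + 1) ∧
      ((x, k) ∈ Q ↔ ∃ u : List Bool, u.length = (R (pairBits (π k) x)).length ∧
        A (false :: (R (pairBits (π k) x) ++ u)) = true)

/-- The class `W[1]` relative to `A`: the problems `Q` with an fpt-reduction relative to `A` to the
`k`-step halting problem of nondeterministic Turing machines with oracle, with short questions: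
the new instance is `⟨1 ^ k', y⟩`, where the new parameter `k'` is at most `g k`. -/
def InW1 (A : Oracle) (Q : Set (List Bool × ℕ)) : Prop :=
  ∃ (e : ℕ) (π : ℕ → List Bool) (g : ℕ → ℕ) (R : List Bool → List Bool), Computable π ∧
    Computable g ∧ IsFP A R ∧ ∀ x k, ∃ (y : List Bool) (k' : ℕ), k' ≤ g k ∧
      R (pairBits (π k) x) = pairBits (List.replicate k' true) y ∧
      ((x, k) ∈ Q ↔ (y, k') ∈ kHaltS e A)

/-- The problem `Q`, which depends on the oracle, has short questions: the answer for `(x, k)` depends
only on the values of the oracle at the strings of length at most `h k * (log |x| + 1)`. -/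
def Short (h : ℕ → ℕ) (Q : Oracle → Set (List Bool × ℕ)) : Prop :=
  ∀ (A B : Oracle) (x : List Bool) (k : ℕ),
    (∀ q : List Bool, q.length ≤ h k * (Nat.log 2 x.length + 1) → A q = B q) →
    ((x, k) ∈ Q A ↔ (x, k) ∈ Q B)

end Pool.Agent.K6.H3.MW
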