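import Pool.Agent.K6.H3.MW.Defs
import Pool.Agent.Y626.WG.Defs

/-! Model checking of first-order sentences with short questions -/

set_option autoImplicit false

namespace Pool.Agent.K6.H3.MW

open Pool.Agent.NPC Pool.Agent.H620R2.Gauge
open Pool.Agent.Y626.WG (Inst Holds)

/-- **The model-checking problem for first-order sentences with short questions, relative to the
oracle `A`**: given (the code `x` of) a structure with binary relations, whose elements have labels of
length at most `e * (log |x| + 1)`, and a sentence in prenex normal form with any number of
quantifier alternations, whose atoms may say that the concatenation of the labels of some variables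
is in the oracle; is the sentence true? The parameter `k` is (a bound for) the number of the variables
plus the length of the atoms. -/
def sents (e : ℕ) (A : Oracle) : Set (List Bool × ℕ) :=
  {q | ∃ I : Inst, q.1 = bits I ∧ I.param ≤ q.2 ∧
    (∀ l ∈ I.labels, l.length ≤ e * (Nat.log 2 q.1.length + 1)) ∧ I.Sat A}

theorem holds_congr' {N : ℕ} {P P' : List ℕ → Prop} (hP : ∀ v, P v ↔ P' v) :
    ∀ (bs : List ℕ) (b : Bool) (v : List ℕ), Holds N P b bs v ↔ Holds N P' b bs v := by
  intro bs
  induction bs with
  | nil => intro b v; cases b <;> exact hP v
  | cons s bs ih =>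
    intro b v
    cases b with
    | true =>
      show (∃ w : List ℕ, w.length = s ∧ (∀ a ∈ w, a < N) ∧ Holds N P false bs (v ++ w)) ↔
        (∃ w : List ℕ, w.length = s ∧ (∀ a ∈ w, a < N) ∧ Holds N P' false bs (v ++ w))
      exact exists_congr fun w => and_congr_right fun _ => and_congr_right fun _ => ih _ _
    | false =>
      show (∀ w : List ℕ, w.length = s → (∀ a ∈ w, a < N) → Holds N P true bs (v ++ w)) ↔
        (∀ w : List ℕ, w.length = s → (∀ a ∈ w, a < N) → Holds N P' true bs (v ++ w))
      exact forall_congr' fun w => imp_congr_right fun _ => imp_congr_right fun _ => ih _ _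

theorem sents_short (e : ℕ) : Short (fun k => e * k) (sents e) := by
  intro A B x k hAB
  show (∃ I : Inst, x = bits I ∧ I.param ≤ k ∧
      (∀ l ∈ I.labels, l.length ≤ e * (Nat.log 2 x.length + 1)) ∧ I.Sat A) ↔
    (∃ I : Inst, x = bits I ∧ I.param ≤ k ∧
      (∀ l ∈ I.labels, l.length ≤ e * (Nat.log 2 x.length + 1)) ∧ I.Sat B)
  refine exists_congr fun I => and_congr_right fun _ => and_congr_right fun hk =>
    and_congr_right fun hl => ?_
  unfold Inst.Sat
  refine holds_congr' (fun v => ?_) _ _ _
  have h3 : I.atoms.map (I.atom A v) = I.atoms.map (I.atom B v) := by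
    refine List.map_congr_left fun a ha => ?_
    obtain ⟨r, l⟩ := a
    cases r with
    | zero =>
      show A (l.flatMap fun i => I.labels.getD (v.getD i 0) []) =
        B (l.flatMap fun i => I.labels.getD (v.getD i 0) [])
      refine hAB _ ?_
      have h1 : l.length ≤ k := by
        have h4 : l.length + 1 ≤ (I.atoms.map fun p => p.2.length + 1).sum :=
          List.single_le_sum (fun _ _ => Nat.zero_le _) _
            (List.mem_map.2 ⟨(0, l), ha, rfl⟩)
        unfold Inst.param at hk
        omega
      have h5 : ∀ j, (I.labels.getD j []).length ≤ e * (Nat.log 2 x.length + 1) := by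
        intro j
        by_cases hj : j < I.labels.length
        · rw [List.getD_eq_getElem _ _ hj]
          exact hl _ (List.getElem_mem hj)
        · rw [List.getD_eq_default _ _ (not_lt.1 hj)]
          simp
      have h2 : ∀ l : List ℕ, (l.flatMap fun i => I.labels.getD (v.getD i 0) []).length ≤
          l.length * (e * (Nat.log 2 x.length + 1)) := by
        intro l
        induction l with
        | nil => simp
        | cons a l ih =>
          rw [List.flatMap_cons, List.length_append, List.length_cons, Nat.succ_mul]
          have := h5 (v.getD a 0)
          omega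
      refine (h2 l).trans ((Nat.mul_le_mul_right _ h1).trans_eq ?_)
      ring
    | succ r => rfl
  rw [h3]

end Pool.Agent.K6.H3.MW
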