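import Pool.Agent.K6.H3.MW.Pos
import Pool.Agent.K6.H3.MW.Sents

/-! The final theorem -/

set_option autoImplicit false

namespace Pool.Agent.K6.H3.MW

open Pool.Agent.NPC Pool.Agent.H620R2.Gauge Pool.Agent.TH678.SQ Pool.Agent.H622R2
open Pool.Agent.TH678.WP (ParaAny computable_pairBits computable_replicate)

/-- the three families of problems, as one family -/
def fam (Q : ℕ → Oracle → Set (List Bool × ℕ)) (j : ℕ) : Oracle → Set (List Bool × ℕ) :=
  if j % 3 = 0 then kHaltS (j / 3) else if j % 3 = 1 then sents (j / 3) else Q (j / 3)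

/-- the bounds for the questions -/
def famH (h : ℕ → ℕ → ℕ) (j : ℕ) : ℕ → ℕ :=
  if j % 3 = 0 then fun k => (j / 3 + 2) * k else if j % 3 = 1 then fun k => j / 3 * k
  else h (j / 3)

theorem fam_short {h : ℕ → ℕ → ℕ} {Q : ℕ → Oracle → Set (List Bool × ℕ)}
    (hQ : ∀ e, Short (h e) (Q e)) (j : ℕ) : Short (famH h j) (fam Q j) := by
  unfold fam famH
  split_ifs
  · exact kHaltS_short _
  · exact sents_short _
  · exact hQ _

theorem comp_mul (a : ℕ) : Computable (fun k : ℕ => a * k) :=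
  (Primrec.nat_mul.comp (Primrec.const a) Primrec.id).to_comp

theorem inW1_kHaltS (e : ℕ) (O : Oracle) : InW1 O (kHaltS e O) := by
  refine ⟨e, fun k => List.replicate k true, fun k => k, fun z => z, computable_replicate,
    Computable.id, IsFP.of_poly NPC.Poly.id, fun x k => ⟨x, k, le_rfl, rfl, Iff.rfl⟩⟩

theorem main (Q : ℕ → Oracle → Set (List Bool × ℕ)) (h : ℕ → ℕ → ℕ)
    (hh : ∀ e, Computable (h e)) (hQ : ∀ e, Short (h e) (Q e)) :
    ∃ O : Oracle, (∀ P, InW1 O P → InM1 O P) ∧ (∀ e, InM1 O (sents e O)) ∧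
      (∀ e, InM1 O (Q e O)) ∧ ∀ e, InW1 O (kHaltS e O) ∧ ¬ ParaAny (IsP O) (kHaltS e O) ∧
        ∀ (M : Alg) (c k : ℕ) (σ : List Bool), (∀ n, M.p.eval n ≤ (n + 2) ^ c) → c + 2 ≤ k →
          ∃ x : List Bool, ¬ ((x, k) ∈ kHaltS e O ↔ M.out O (pairBits σ x) = some [true]) := by
  obtain ⟨O, h1, h2⟩ := exists_oracle (h := famH h) (Q := fam Q) (fam_short hQ)
  have hsl : ∀ (e : ℕ) (M : Alg) (c k : ℕ) (σ : List Bool), (∀ n, M.p.eval n ≤ (n + 2) ^ c) →
      c + 2 ≤ k → ∃ x : List Bool, ¬ ((x, k) ∈ kHaltS e O ↔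
        M.out O (pairBits σ x) = some [true]) := fun e M c k σ hM hck =>
    h2 (e, M, c, k, σ) hM hck
  refine ⟨O, fun P hP => ?_, fun e => ?_, fun e => ?_, fun e => ⟨inW1_kHaltS e O, ?_, hsl e⟩⟩
  · refine w1_sub_m1 O h1 (fun e => ⟨3 * e, ?_, ?_⟩) hP
    · unfold famH
      rw [if_pos (by omega), show 3 * e / 3 = e by omega]
    · unfold fam
      rw [if_pos (by omega), show 3 * e / 3 = e by omega]
  · have h3 := inM1_of_good O h1 (3 * e + 1) (by
      unfold famH
      rw [if_neg (by omega), if_pos (by omega)]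
      exact comp_mul _)
    unfold fam at h3
    rw [if_neg (by omega), if_pos (by omega), show (3 * e + 1) / 3 = e by omega] at h3
    exact h3
  · have h3 := inM1_of_good O h1 (3 * e + 2) (by
      unfold famH
      rw [if_neg (by omega), if_neg (by omega)]
      exact hh _)
    unfold fam at h3
    rw [if_neg (by omega), if_neg (by omega), show (3 * e + 2) / 3 = e by omega] at h3
    exact h3
  · rintro ⟨π, L, ⟨V, ⟨M, hM⟩, hV⟩, hL⟩
    obtain ⟨c, _, hc⟩ := Pool.Agent.H622R2.Exp.YAux.poly_bound M.p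
    obtain ⟨x, hx⟩ := hsl e M c (c + 2) (π (c + 2)) hc le_rfl
    apply hx
    rw [hL x (c + 2), hV, hM, Option.some.injEq]

end Pool.Agent.K6.H3.MW
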