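import Pool.Agent.K6.H3.MW.One
import Pool.Agent.H620R2.GaugeR.Seq

/-! The oracle -/

set_option autoImplicit false

namespace Pool.Agent.K6.H3.MW

open Pool.Agent.NPC Pool.Agent.H620R2.Gauge Pool.Agent.TH678.SQ Pool.Agent.H622R2
open Pool.Agent.TH678.RW (Rule rOut Cfg HaltsIn step nxt rAsk App)

/-! ### The halting problem has short questions -/

theorem halts_congr (M : List Rule) (w : ℕ) (hM : ∀ ρ ∈ M, (rOut ρ).length ≤ w) {A B : Oracle} :
    ∀ (k : ℕ) (c : Cfg), (∀ q : List Bool, q.length ≤ c.2.2.2.length + k * w → A q = B q) →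
      (HaltsIn A M k c ↔ HaltsIn B M k c) := by
  intro k
  induction k with
  | zero => intro c _; exact Iff.rfl
  | succ k ih =>
    intro c hc
    show (c.1 = 1 ∨ ∃ ρ ∈ M, App c ρ ∧ HaltsIn A M k (step A c ρ)) ↔
      (c.1 = 1 ∨ ∃ ρ ∈ M, App c ρ ∧ HaltsIn B M k (step B c ρ))
    refine or_congr Iff.rfl (exists_congr fun ρ => and_congr_right fun hρ =>
      and_congr_right fun _ => ?_)
    have h1 : A (c.2.2.2 ++ rOut ρ) = B (c.2.2.2 ++ rOut ρ) := by
      apply hc
      rw [List.length_append]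
      have := hM ρ hρ
      have h2 : (k + 1) * w = k * w + w := by ring
      omega
    have h2 : step A c ρ = step B c ρ := by
      unfold step
      rw [h1]
    rw [h2]
    refine ih _ fun q hq => hc q (hq.trans ?_)
    have h3 : (step B c ρ).2.2.2.length ≤ c.2.2.2.length + w := by
      unfold step nxt
      dsimp only
      split_ifs <;> simp
      have := hM ρ hρ
      omega
    have h2 : (k + 1) * w = k * w + w := by ring
    omega

theorem kHaltS_short (e : ℕ) : Short (fun k => (e + 2) * k) (kHaltS e) := by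
  intro A B x k hAB
  unfold kHaltS
  show (∃ M : List Rule, x = bits M ∧ (∀ ρ ∈ M, (rOut ρ).length ≤
      (e + 2) * (Nat.log 2 x.length + 1)) ∧ HaltsIn A M k (0, [], [], [])) ↔
    (∃ M : List Rule, x = bits M ∧ (∀ ρ ∈ M, (rOut ρ).length ≤
      (e + 2) * (Nat.log 2 x.length + 1)) ∧ HaltsIn B M k (0, [], [], []))
  refine exists_congr fun M => and_congr_right fun _ => and_congr_right fun hM => ?_
  refine halts_congr M _ hM k _ fun q hq => hAB q ?_
  have h1 : k * ((e + 2) * (Nat.log 2 x.length + 1)) = (e + 2) * k * (Nat.log 2 x.length + 1) := by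
    ring
  rw [← h1]
  simpa using hq

/-! ### All requirements -/

/-- the requirement: the algorithm `M` with few questions and with the advice `σ` makes an error on
some instance with the parameter `k` of the halting problem -/
def Req (j : ℕ × Alg × ℕ × ℕ × List Bool) (A : Oracle) : Prop :=
  (∀ n, j.2.1.p.eval n ≤ (n + 2) ^ j.2.2.1) → j.2.2.1 + 2 ≤ j.2.2.2.1 →
    ∃ x : List Bool, ¬ ((x, j.2.2.2.1) ∈ kHaltS j.1 A ↔
      j.2.1.out A (pairBits j.2.2.2.2 x) = some [true])

variable {h : ℕ → ℕ → ℕ} {Q : ℕ → Oracle → Set (List Bool × ℕ)}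

theorem step_req (hQ : ∀ e, Short (h e) (Q e)) (j : ℕ × Alg × ℕ × ℕ × List Bool) (O : Oracle)
    (L : ℕ) (hO : Good h Q L O) : ∃ (O' : Oracle) (L' : ℕ), Good h Q L' O' ∧ L < L' ∧
      (∀ q : List Bool, q.length ≤ L → O' q = O q) ∧
      ∀ A : Oracle, (∀ q : List Bool, q.length ≤ L' → A q = O' q) → Req j A := by
  by_cases hj : (∀ n, j.2.1.p.eval n ≤ (n + 2) ^ j.2.2.1) ∧ j.2.2.1 + 2 ≤ j.2.2.2.1
  · obtain ⟨O', h1, h2, x, h3⟩ := one hQ j.1 j.2.1 j.2.2.1 j.2.2.2.1 j.2.2.2.2 hj.1 hj.2 O L hO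
    obtain ⟨qb, hqb⟩ := j.2.1.out_local
    obtain ⟨Qs, _, hQ2, hQ3⟩ := hqb O' (pairBits j.2.2.2.2 x)
    set L' := max (L + 1) (max (qb.eval (pairBits j.2.2.2.2 x).length)
      ((j.1 + 2) * j.2.2.2.1 * (Nat.log 2 x.length + 1))) with hL'
    refine ⟨O', L', h1 L', ?_, h2, fun A hA _ _ => ⟨x, fun hcon => h3 ?_⟩⟩
    · exact lt_of_lt_of_le (Nat.lt_succ_self L) (le_max_left _ _)
    · rw [hQ3 A fun q hq => hA q ((hQ2 q hq).trans
        ((le_max_left _ _).trans (le_max_right _ _)))] at hcon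
      rw [← kHaltS_short j.1 A O' x j.2.2.2.1 fun q hq => hA q (hq.trans
        ((le_max_right _ _).trans (le_max_right _ _)))]
      exact hcon
  · obtain ⟨W, hW⟩ := exists_isW h Q O L (SF Q (fun _ => False) (fun _ => none) (fun _ => []))
      (fun _ => none)
    have hd : Data h O L (fun _ => False) (fun _ => none) (fun _ => []) :=
      ⟨fun J ρ h => absurd h (by simp), fun J J' ρ h => absurd h (by simp),
        fun v hv => hv.elim⟩
    exact ⟨W, L + 1, good_final hQ hO hd hW _, Nat.lt_succ_self L, fun q hq => hW.low hq,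
      fun A _ h1 h2 => absurd ⟨h1, h2⟩ hj⟩

theorem exists_oracle (hQ : ∀ e, Short (h e) (Q e)) : ∃ O : Oracle, (∀ L, Good h Q L O) ∧
    ∀ j, Req j O := by
  classical
  have hne : Nonempty Alg := by
    obtain ⟨M, _⟩ := IsFP.of_poly (A := fun _ => false) (F := fun x : List Bool => x) NPC.Poly.id
    exact ⟨M⟩
  obtain ⟨f, hf⟩ := exists_surjective_nat (ℕ × Alg × ℕ × ℕ × List Bool)
  have hstep : ∀ (p : {p : Oracle × ℕ // Good h Q p.2 p.1}) (n : ℕ),
      ∃ p' : {p : Oracle × ℕ // Good h Q p.2 p.1}, p.1.2 < p'.1.2 ∧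
        (∀ q : List Bool, q.length ≤ p.1.2 → p'.1.1 q = p.1.1 q) ∧
        ∀ A : Oracle, (∀ q : List Bool, q.length ≤ p'.1.2 → A q = p'.1.1 q) → Req (f n) A := by
    intro p n
    obtain ⟨O', L', h1, h2, h3, h4⟩ := step_req hQ (f n) p.1.1 p.1.2 p.2
    exact ⟨⟨(O', L'), h1⟩, h2, h3, h4⟩
  choose nxt hn1 hn2 hn3 using hstep
  have hstart : Good h Q 0 (fun _ => false) := by
    refine ⟨fun ℓ h3 hL => absurd hL (by omega), fun I hI => absurd hI ?_⟩
    rw [lam_eq]
    omega
  set s : ℕ → {p : Oracle × ℕ // Good h Q p.2 p.1} := fun n =>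
    Nat.rec ⟨(fun _ => false, 0), hstart⟩ (fun n p => nxt p n) n with hs
  have s1 : ∀ n, (s n).1.2 < (s (n + 1)).1.2 := fun n => hn1 (s n) n
  have s2 : ∀ n (q : List Bool), q.length ≤ (s n).1.2 → (s (n + 1)).1.1 q = (s n).1.1 q :=
    fun n => hn2 (s n) n
  have s3 : ∀ n (A : Oracle), (∀ q : List Bool, q.length ≤ (s (n + 1)).1.2 →
      A q = (s (n + 1)).1.1 q) → Req (f n) A := fun n => hn3 (s n) n
  have s4 : ∀ n, n ≤ (s n).1.2 := by
    intro n
    induction n with
    | zero => exact Nat.zero_le _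
    | succ n ih =>
      have := s1 n
      omega
  have s5 : ∀ (n d : ℕ) (q : List Bool), q.length ≤ (s n).1.2 →
      (s (n + d)).1.1 q = (s n).1.1 q ∧ q.length ≤ (s (n + d)).1.2 := by
    intro n d q hq
    induction d with
    | zero => exact ⟨rfl, hq⟩
    | succ d ih =>
      have h1 := s2 (n + d) q ih.2
      have h2 := s1 (n + d)
      refine ⟨?_, ?_⟩
      · rw [← add_assoc, h1, ih.1]
      · rw [← add_assoc]
        omega
  set O : Oracle := fun q => (s q.length).1.1 q with hO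
  have s6 : ∀ n (q : List Bool), q.length ≤ (s n).1.2 → O q = (s n).1.1 q := by
    intro n q hq
    rw [hO]
    dsimp only
    rcases Nat.le_total n q.length with h1 | h1
    · obtain ⟨d, hd⟩ := Nat.exists_eq_add_of_le h1
      rw [hd]
      exact (s5 n d q hq).1
    · obtain ⟨d, hd⟩ := Nat.exists_eq_add_of_le h1
      rw [hd]
      exact (s5 q.length d q (s4 _)).1.symm
  refine ⟨O, fun L => ?_, fun j => ?_⟩
  · have h1 : Good h Q (s L).1.2 O := good_congr hQ (fun q hq => (s6 L q hq).symm) (s L).2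
    have h2 := s4 L
    exact ⟨fun ℓ h3 hL => h1.both ℓ h3 (hL.trans h2), fun I hI => h1.right I (hI.trans h2)⟩
  · obtain ⟨n, rfl⟩ := hf j
    exact s3 n O fun q hq => s6 (n + 1) q hq

end Pool.Agent.K6.H3.MW
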