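import Pool.Agent.K6.H3.MW.Star
import Pool.Agent.TH678.RS.Diag

/-! One error -/

set_option autoImplicit false

namespace Pool.Agent.K6.H3.MW

open Pool.Agent.NPC Pool.Agent.H620R2.Gauge Pool.Agent.TH678.SQ Pool.Agent.H622R2
open Pool.Agent.TH678.RS (ev_poly)

/-- the table of the hard instances -/
def rr (e m k : ℕ) : Fin k → Fin (2 ^ m) → Fin ((e + 2) * m) → Bool := fun _ i p =>
  if p.val = 0 then true else i.val.testBit (p.val - 1)

theorem rr_inj {e m k : ℕ} (hm : 2 ≤ m) {ι ι' : Fin k → Fin (2 ^ m)}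
    (h : zr (rr e m k) ι = zr (rr e m k) ι') : ι = ι' := by
  have e1 : (e + 2) * m = e * m + m + m := by ring
  funext j
  apply Fin.ext
  apply Nat.eq_of_testBit_eq
  intro p
  by_cases hp : p < m
  · have h1 := congrFun (congrFun h j) ⟨p + 1, by omega⟩
    unfold zr rr at h1
    simpa using h1
  · rw [Nat.testBit_lt_two_pow (lt_of_lt_of_le (ι j).isLt (Nat.pow_le_pow_right (by norm_num)
      (by omega))), Nat.testBit_lt_two_pow (lt_of_lt_of_le (ι' j).isLt
        (Nat.pow_le_pow_right (by norm_num) (by omega)))]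

theorem cat_head {e m k : ℕ} (hm : 2 ≤ m) (hk : 1 ≤ k) (ι : Fin k → Fin (2 ^ m)) :
    ∃ v, cat (zr (rr e m k) ι) = true :: v := by
  obtain ⟨k, rfl⟩ : ∃ k', k = k' + 1 := ⟨k - 1, by omega⟩
  have h1 : 0 < (e + 2) * m := by positivity
  obtain ⟨ℓ, hℓ⟩ : ∃ ℓ, (e + 2) * m = ℓ + 1 := ⟨(e + 2) * m - 1, by omega⟩
  have h2 : 0 < (cat (zr (rr e m (k + 1)) ι)).length := by
    rw [length_cat]
    positivity
  rcases hc : cat (zr (rr e m (k + 1)) ι) with _ | ⟨c, v⟩
  · rw [hc] at h2
    simp at h2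
  · refine ⟨v, ?_⟩
    congr 1
    unfold cat at hc
    rw [List.ofFn_succ, List.flatten_cons] at hc
    have h3 : (List.ofFn (zr (rr e m (k + 1)) ι 0))[0]? = some true := by
      rw [List.getElem?_ofFn, dif_pos h1]
      rfl
    have h4 := congrArg (fun l : List Bool => l[0]?) hc
    rw [List.getElem?_append_left (by rw [List.length_ofFn]; exact h1), h3] at h4
    simpa using h4.symm

theorem cat_ne {e m k : ℕ} (hm : 2 ≤ m) (hk : 1 ≤ k) (ι : Fin k → Fin (2 ^ m)) (n : ℕ) :
    cat (zr (rr e m k) ι) ≠ List.replicate n true := by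
  intro h
  have e1 : (e + 2) * m = e * m + m + m := by ring
  have h1 : ∀ b ∈ cat (zr (rr e m k) ι), b = true := by
    rw [h]
    exact fun b hb => List.eq_of_mem_replicate hb
  have h2 := h1 ((ι ⟨0, hk⟩).val.testBit m) (by
    unfold cat
    rw [List.mem_flatten]
    refine ⟨List.ofFn (zr (rr e m k) ι ⟨0, hk⟩), ?_, ?_⟩
    · rw [List.mem_ofFn]
      exact ⟨_, rfl⟩
    · rw [List.mem_ofFn]
      refine ⟨⟨m + 1, by omega⟩, ?_⟩
      unfold zr rr
      simp)
  rw [Nat.testBit_lt_two_pow (ι ⟨0, hk⟩).isLt] at h2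
  exact Bool.false_ne_true h2

theorem numbers (s C c L : ℕ) : ∃ m : ℕ, 2 ≤ m ∧ L < m ∧
    2 * (2 * s + 1 + C * ((m + 1) * 2 ^ m) + 2) ^ c < 2 ^ (m * (c + 1)) := by
  have h1 := ev_poly (2 * (2 * s + 3 + C) ^ c) c
  obtain ⟨m, h1, h2⟩ := (h1.and (Filter.eventually_ge_atTop (L + 8))).exists
  refine ⟨m, by omega, by omega, ?_⟩
  have h3 : 1 ≤ (m + 1) * 2 ^ m := Nat.mul_pos (by omega) (by positivity)
  have h4 : 2 * s + 1 + C * ((m + 1) * 2 ^ m) + 2 ≤ (2 * s + 3 + C) * ((m + 1) * 2 ^ m) := by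
    have h5 : (2 * s + 3 + C) * ((m + 1) * 2 ^ m) =
        (2 * s + 3) * ((m + 1) * 2 ^ m) + C * ((m + 1) * 2 ^ m) := by ring
    have h6 : 2 * s + 3 ≤ (2 * s + 3) * ((m + 1) * 2 ^ m) := Nat.le_mul_of_pos_right _ h3
    omega
  calc 2 * (2 * s + 1 + C * ((m + 1) * 2 ^ m) + 2) ^ c
      ≤ 2 * ((2 * s + 3 + C) * ((m + 1) * 2 ^ m)) ^ c :=
        Nat.mul_le_mul_left _ (Nat.pow_le_pow_left h4 _)
    _ = 2 * (2 * s + 3 + C) ^ c * (m + 1) ^ c * 2 ^ (m * c) := by
        rw [mul_pow, mul_pow, ← pow_mul]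
        ring
    _ < 2 ^ m * 2 ^ (m * c) := Nat.mul_lt_mul_of_pos_right h1 (by positivity)
    _ = 2 ^ (m * (c + 1)) := by
        rw [← pow_add]
        congr 1
        ring

variable {h : ℕ → ℕ → ℕ} {Q : ℕ → Oracle → Set (List Bool × ℕ)}

open Classical in
theorem one (hQ : ∀ e, Short (h e) (Q e)) (e : ℕ) (M : Alg) (c k : ℕ) (σ : List Bool)
    (hM : ∀ n, M.p.eval n ≤ (n + 2) ^ c) (hck : c + 2 ≤ k) (O₀ : Oracle) (L : ℕ)
    (h0 : Good h Q L O₀) : ∃ O : Oracle, (∀ L', Good h Q L' O) ∧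
      (∀ q : List Bool, q.length ≤ L → O q = O₀ q) ∧
      ∃ x : List Bool, ¬ ((x, k) ∈ kHaltS e O ↔ M.out O (pairBits σ x) = some [true]) := by
  obtain ⟨m, hm, hL, hnum⟩ := numbers σ.length (120 * (k + 2) ^ 2 * (e + 2)) c L
  set r := rr e m k with hr
  set x := Xq r with hx
  set inp := pairBits σ x with hinp
  have hlenx : x.length ≤ 120 * (k + 2) ^ 2 * (e + 2) * ((m + 1) * 2 ^ m) :=
    length_Xq e m (by omega) r
  set n := M.p.eval inp.length with hn
  obtain ⟨τ, hτ⟩ : ∃ τ, τ = m * (c + 1) := ⟨_, rfl⟩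
  have hτm : m ≤ τ := by
    rw [hτ]
    exact Nat.le_mul_of_pos_right _ (by omega)
  have hnτ : 2 * n < 2 ^ τ := by
    refine lt_of_le_of_lt (Nat.mul_le_mul_left 2 ((hM _).trans (Nat.pow_le_pow_left ?_ c)))
      (hτ ▸ hnum)
    rw [hinp, length_pairBits]
    omega
  have hnτ' : n < 2 ^ (τ - 1) := by
    obtain ⟨τ', rfl⟩ : ∃ τ', τ = τ' + 1 := ⟨τ - 1, by omega⟩
    rw [pow_succ] at hnτ
    rw [Nat.add_sub_cancel]
    omega
  obtain ⟨ρ, hfine, _, hinj⟩ := adapt (Q := Q) (O₀ := O₀) (L := L) (τ := τ) hQ M inp n [] ∅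
    (fun I => false :: true :: List.replicate (ell h I - 2) false) (fun I hI => by
      refine ⟨?_, _, rfl⟩
      rw [List.length_cons, List.length_cons, List.length_replicate]
      omega) (by simp) (by simpa using hnτ')
  rw [Finset.coe_empty, Set.empty_union] at hinj
  set O := star h Q O₀ L τ ρ with hO
  have hOW : IsW h Q O₀ L (fun v _ => v = List.replicate v.length true) (DS h τ ρ) O :=
    star_isW h Q O₀ L τ ρ
  set l := qs M O inp n [] with hl
  have hlcard : l.toFinset.card ≤ n := (List.toFinset_card_le l).trans (length_qs ..)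
  -- the instances with prescribed codes
  set D : Ins → Option (List Bool) := fun I => if I ∈ touched h τ l then some (ρ I) else none
    with hD
  have hDs : ∀ J ρJ, D J = some ρJ → J ∈ touched h τ l ∧ ρJ = ρ J := by
    intro J ρJ hJ
    rw [hD] at hJ
    dsimp only at hJ
    split_ifs at hJ with h1
    exact ⟨h1, (Option.some.inj hJ).symm⟩
  -- the witnesses
  have hy : ∀ I : Ins, ∃ u : List Bool, u.length = ell h I ∧
      (τ < ell h I → false :: (ρ I ++ u) ∉ l) := by
    intro I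
    by_cases hI : τ < ell h I
    · obtain ⟨u, hu1, hu2⟩ := exists_str (ell h I) (fun u => false :: (ρ I ++ u))
        (fun u u' hu => List.append_cancel_left (List.cons.inj hu).2) l.toFinset
        (lt_of_le_of_lt hlcard (lt_of_lt_of_le (by omega)
          (Nat.pow_le_pow_right (by norm_num) hI.le)))
      exact ⟨u, hu1, fun _ h1 => hu2 (List.mem_toFinset.2 h1)⟩
    · exact ⟨List.replicate _ true, List.length_replicate .., fun h1 => absurd h1 hI⟩
  choose y hy1 hy2 using hy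
  -- the hit
  obtain ⟨ι, hι⟩ : ∃ ι : Fin k → Fin (2 ^ m), ls (zr r ι) ∉ l := by
    by_contra hcon
    push Not at hcon
    have h1 := Finset.card_le_card_of_injOn (s := (Finset.univ : Finset (Fin k → Fin (2 ^ m))))
      (t := l.toFinset) (fun ι => ls (zr r ι)) (fun ι _ => List.mem_toFinset.2 (hcon ι))
      (fun ι _ ι' _ hh => rr_inj hm (ls_inj hh))
    rw [Finset.card_univ, Fintype.card_fun, Fintype.card_fin, Fintype.card_fin, ← pow_mul] at h1
    have h2 : 2 ^ τ ≤ 2 ^ (m * k) := Nat.pow_le_pow_right (by norm_num) (by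
      rw [hτ]
      exact Nat.mul_le_mul_left _ (by omega))
    omega
  have hk : 1 ≤ k := by omega
  have hcatlen : ∀ ι' : Fin k → Fin (2 ^ m), 2 * τ < (cat (zr r ι')).length := by
    intro ι'
    rw [length_cat, hτ]
    have h1 : (c + 2) * ((e + 2) * m) ≤ k * ((e + 2) * m) := Nat.mul_le_mul_right _ hck
    have h2 : 2 * m ≤ (e + 2) * m := Nat.mul_le_mul_right _ (by omega)
    have h3 : (c + 2) * (2 * m) ≤ (c + 2) * ((e + 2) * m) := Nat.mul_le_mul_left _ h2
    have h4 : (c + 2) * (2 * m) = 2 * (m * (c + 1)) + 2 * m := by ring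
    omega
  have hdata : ∀ hit : List Bool → Prop, (∀ v, hit v → ∃ v', v = true :: v') →
      Data h O₀ L hit D y := by
    intro hit hhit
    refine ⟨fun J ρJ hJ => ?_, fun J J' ρJ hJ hJ' => ?_, hhit⟩
    · obtain ⟨h1, rfl⟩ := hDs J ρJ hJ
      obtain ⟨h2, h3⟩ := hfine J h1.1
      have h4 := h1.1
      exact ⟨h2, hy1 J, by omega, h3⟩
    · obtain ⟨h1, rfl⟩ := hDs J ρJ hJ
      obtain ⟨h2, h3⟩ := hDs J' _ hJ'
      exact hinj h1 h2 h3
  have hagree : ∀ (hit : List Bool → Prop) (W : Oracle),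
      (∀ v, hit v → ∃ v', v = true :: v') → (∀ v, hit v → v = cat (zr r ι)) →
      IsW h Q O₀ L (SF Q hit D y) D W → M.out W inp = M.out O inp := by
    intro hit W hhit hhit' hW
    have hd := hdata hit hhit
    have hlow := agree_short hQ (τ := τ) hW hOW (fun v B hv => by
        unfold SF
        constructor
        · rintro (h1 | h1 | ⟨J, ρJ, h1, h2, _⟩)
          · exact h1
          · exfalso
            rw [hhit' v h1] at hv
            have := hcatlen ι
            omega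
          · exfalso
            obtain ⟨g1, g2, _, _⟩ := hd.len J ρJ h1
            obtain ⟨g3, _⟩ := hDs J ρJ h1
            have g4 := g3.1
            rw [h2, List.length_append, g1, g2] at hv
            omega
        · exact fun h1 => Or.inl h1) (fun _ _ _ => Iff.rfl) (fun I hI => by
        rw [hD]
        dsimp only
        rw [if_neg]
        rintro ⟨h1, _⟩
        omega) (fun _ => DS_none)
    refine run_qs M O W inp n [] fun q hq => ?_
    refine hW.eq_of hQ hOW (fun v hv _ => ?_) (fun I i hi hc _ => ?_)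
    · unfold SF
      constructor
      · rintro (h1 | h1 | ⟨J, ρJ, h1, h2, _⟩)
        · exact h1
        · exfalso
          rw [hv, hhit' v h1] at hq
          exact hι hq
        · exfalso
          obtain ⟨g3, g4⟩ := hDs J ρJ h1
          rw [hv, h2, g4] at hq
          exact hy2 J g3.1 hq
      · exact fun h1 => Or.inl h1
    · by_cases hI : τ < ell h I
      · have h1 : I ∈ touched h τ l := ⟨hI, i, hi, hc ▸ hq⟩
        have h2 : D I = some (ρ I) := by
          rw [hD]
          dsimp only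
          rw [if_pos h1]
        have h3 : DS h τ ρ I = some (ρ I) := by
          unfold DS
          rw [if_pos hI]
        rw [h2, h3]
        exact ⟨rfl, fun h4 => absurd h4 (Option.some_ne_none _)⟩
      · have h1 : D I = none := by
          rw [hD]
          dsimp only
          rw [if_neg]
          rintro ⟨h2, _⟩
          exact hI h2
        refine ⟨by rw [h1, DS_none (not_lt.1 hI)], fun _ q' hq' => ?_⟩
        exact hlow q'.length q' rfl (by omega)
  have hstat : ∀ (hit : List Bool → Prop) (W : Oracle),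
      (∀ v, hit v → ∃ v', v = true :: v') → IsW h Q O₀ L (SF Q hit D y) D W →
      ∀ ι' : Fin k → Fin (2 ^ m), (W (ls (zr r ι')) = true ↔ hit (cat (zr r ι'))) := by
    intro hit W hhit hW ι'
    have h1 := hcatlen ι'
    unfold ls
    rw [hW.stat (by omega)]
    unfold SF
    constructor
    · rintro (h2 | h2 | ⟨J, ρJ, h2, h3, _⟩)
      · exact absurd h2 (cat_ne hm hk ι' _)
      · exact h2
      · exfalso
        obtain ⟨_, _, _, ρ', g1⟩ := (hdata hit hhit).len J ρJ h2
        obtain ⟨v, hv⟩ := cat_head (e := e) hm hk ι'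
        rw [← hr] at hv
        rw [hv, g1, List.cons_append, List.cons.injEq] at h3
        exact Bool.false_ne_true h3.1.symm
    · exact fun h2 => Or.inr (Or.inl h2)
  -- the two oracles
  obtain ⟨v₀, hv₀⟩ := cat_head (e := e) hm hk ι
  rw [← hr] at hv₀
  set hit₁ : List Bool → Prop := fun v => v = cat (zr r ι) with hhit₁
  set hit₀ : List Bool → Prop := fun _ => False with hhit₀
  have g1 : ∀ v, hit₁ v → ∃ v', v = true :: v' := fun v hv => ⟨v₀, hv.trans hv₀⟩
  have g0 : ∀ v, hit₀ v → ∃ v', v = true :: v' := fun v hv => hv.elim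
  obtain ⟨W₁, hW₁⟩ := exists_isW h Q O₀ L (SF Q hit₁ D y) D
  obtain ⟨W₀, hW₀⟩ := exists_isW h Q O₀ L (SF Q hit₀ D y) D
  have e1 := hagree hit₁ W₁ g1 (fun v hv => hv) hW₁
  have e0 := hagree hit₀ W₀ g0 (fun v hv => hv.elim) hW₀
  have t1 : (x, k) ∈ kHaltS e W₁ := by
    rw [hx, kHaltS_iff W₁ hk r]
    exact ⟨ι, (hstat hit₁ W₁ g1 hW₁ ι).2 rfl⟩
  have t0 : (x, k) ∉ kHaltS e W₀ := by
    rw [hx, kHaltS_iff W₀ hk r]
    rintro ⟨ι', hι'⟩
    exact (hstat hit₀ W₀ g0 hW₀ ι').1 hι'
  by_cases hout : M.out O inp = some [true]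
  · refine ⟨W₀, fun L' => good_final hQ h0 (hdata hit₀ g0) hW₀ L', fun q hq => hW₀.low hq, x, ?_⟩
    intro hcon
    exact t0 (hcon.2 (e0.trans hout))
  · refine ⟨W₁, fun L' => good_final hQ h0 (hdata hit₁ g1) hW₁ L', fun q hq => hW₁.low hq, x, ?_⟩
    intro hcon
    exact hout (e1.symm.trans (hcon.1 t1))

end Pool.Agent.K6.H3.MW
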