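import Pool.Agent.K6.H3.MW.Fusion
import Pool.Agent.TH678.WP.Down

/-! The reductions -/

set_option autoImplicit false

namespace Pool.Agent.K6.H3.MW

open Pool.Agent.NPC Pool.Agent.H620R2.Gauge Pool.Agent.TH678.SQ Pool.Agent.H622R2
open Pool.Agent.TH678.WP (poly_replicate uPoly_log computable_replicate computable_pairBits)

/-- the parameter in unary -/
def fk (y : List Bool) : List Bool := (unpair (unpair y).1).1

/-- the bound in unary -/
def fh (y : List Bool) : List Bool := (unpair (unpair y).1).2

/-- the instance -/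
def fx (y : List Bool) : List Bool := (unpair y).2

/-- the length of the code -/
def fl (y : List Bool) : ℕ := (fh y).length * (Nat.log 2 (fx y).length + 1) + 3

/-- `tag`, in polynomial time -/
def tag' (L i : ℕ) : List Bool :=
  List.replicate (min i L) true ++ List.replicate (L - min i L) false

/-- the questions -/
def qq (e : ℕ) (y : List Bool) : List (List Bool) :=
  (List.range (fl y)).map fun i => true :: pairBits (List.replicate e true)
    (pairBits (List.replicate (fk y).length true) (pairBits (tag' (fl y) i) (fx y)))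

theorem poly_fx : Poly fx := NPC.Poly.snd poly_unpair

theorem poly_fk : Poly fk := NPC.Poly.fst (poly_unpair.comp (NPC.Poly.fst poly_unpair))

theorem poly_fh : Poly fh := NPC.Poly.snd (poly_unpair.comp (NPC.Poly.fst poly_unpair))

theorem uPoly_fl : UPoly fl :=
  ((UPoly.length poly_fh).mul (uPoly_log poly_fx)).add (UPoly.const 3)

theorem poly_qq (e : ℕ) : Poly (qq e) := by
  have h1 : Poly (fun y => List.range (fl y)) := UPoly.range uPoly_fl
  have hfl : UPoly (fun p : List Bool × ℕ => fl p.1) := uPoly_fl.comp (NPC.Poly.fst NPC.Poly.id)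
  have hmin : UPoly (fun p : List Bool × ℕ => min p.2 (fl p.1)) :=
    UPoly.of_le (NPC.Poly.min (NPC.Poly.snd NPC.Poly.id) hfl.toPoly) hfl
      (fun p => min_le_right _ _)
  have hsub : UPoly (fun p : List Bool × ℕ => fl p.1 - min p.2 (fl p.1)) :=
    UPoly.of_le (NPC.Poly.sub hfl.toPoly hmin.toPoly) hfl (fun p => Nat.sub_le _ _)
  have htag : Poly (fun p : List Bool × ℕ => tag' (fl p.1) p.2) :=
    NPC.Poly.append (poly_replicate hmin true) (poly_replicate hsub false)
  have hk : Poly (fun p : List Bool × ℕ => List.replicate (fk p.1).length true) :=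
    poly_replicate (UPoly.length (poly_fk.comp (NPC.Poly.fst NPC.Poly.id))) true
  refine NPC.Poly.map h1 (F := fun y i => true :: pairBits (List.replicate e true)
    (pairBits (List.replicate (fk y).length true) (pairBits (tag' (fl y) i) (fx y)))) ?_
  exact NPC.Poly.cons (NPC.Poly.const true) (poly_pairBits (NPC.Poly.const _)
    (poly_pairBits hk (poly_pairBits htag (poly_fx.comp (NPC.Poly.fst NPC.Poly.id)))))

/-- the transformation -/
def RQ (O : Oracle) (e : ℕ) (y : List Bool) : List Bool := (qq e y).map O

theorem isFP_RQ (O : Oracle) (e : ℕ) : IsFP O (RQ O e) :=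
  IsFP.tt (A := O) (Q := qq e) (H := fun p => p.2) (poly_qq e) (NPC.Poly.snd NPC.Poly.id)

theorem RQ_eq (h : ℕ → ℕ → ℕ) (O : Oracle) (e k : ℕ) (x : List Bool) :
    RQ O e (pairBits (pairBits (List.replicate k true) (List.replicate (h e k) true)) x) =
      code h O (e, x, k) := by
  set y := pairBits (pairBits (List.replicate k true) (List.replicate (h e k) true)) x with hy
  have h1 : fk y = List.replicate k true := by
    unfold fk
    rw [hy, unpair_pairBits]
    dsimp only
    rw [unpair_pairBits]
  have h2 : fh y = List.replicate (h e k) true := by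
    unfold fh
    rw [hy, unpair_pairBits]
    dsimp only
    rw [unpair_pairBits]
  have h3 : fx y = x := by
    unfold fx
    rw [hy, unpair_pairBits]
  have h4 : fl y = ell h (e, x, k) := by
    unfold fl ell
    rw [h2, h3, List.length_replicate]
  unfold RQ qq code
  rw [h4, h1, h3, List.map_map]
  refine List.map_congr_left fun i hi => ?_
  have hi' := List.mem_range.1 hi
  show O _ = O (cs h (e, x, k) i)
  unfold cs tag' tag
  beta_reduce
  rw [min_eq_left hi'.le, List.length_replicate]

variable {h : ℕ → ℕ → ℕ} {Q : ℕ → Oracle → Set (List Bool × ℕ)}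

theorem status (O : Oracle) (hO : ∀ L, Good h Q L O) (e k : ℕ) (x : List Bool) :
    (x, k) ∈ Q e O ↔ ∃ u : List Bool, u.length = (code h O (e, x, k)).length ∧
      O (false :: (code h O (e, x, k) ++ u)) = true :=
  ((hO _).right (e, x, k) le_rfl).symm

theorem inM1_of_good (O : Oracle) (hO : ∀ L, Good h Q L O) (e : ℕ) (he : Computable (h e)) :
    InM1 O (Q e O) := by
  refine ⟨fun k => pairBits (List.replicate k true) (List.replicate (h e k) true),
    fun k => h e k + 3, RQ O e, ?_, ?_, isFP_RQ O e, fun x k => ?_⟩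
  · exact computable_pairBits.comp computable_replicate (computable_replicate.comp he)
  · exact (Primrec.nat_add.comp Primrec.id (Primrec.const 3)).to_comp.comp he
  · rw [RQ_eq]
    refine ⟨?_, status O hO e k x⟩
    rw [length_code]
    unfold ell
    have h1 : (h e k + 3) * (Nat.log 2 x.length + 1) =
        h e k * (Nat.log 2 x.length + 1) + 3 * (Nat.log 2 x.length + 1) := by ring
    rw [h1]
    dsimp only
    omega

theorem log_add_le (a b : ℕ) : Nat.log 2 (a + b) ≤ a + Nat.log 2 b + 1 := by
  rcases Nat.eq_zero_or_pos b with hb | hb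
  · subst hb
    rw [add_zero]
    have := Nat.log_lt_self 2 (x := a)
    rcases Nat.eq_zero_or_pos a with ha | ha
    · subst ha
      simp
    · have := Nat.log_lt_self 2 ha.ne'
      omega
  · have h1 : b < 2 ^ (Nat.log 2 b + 1) := Nat.lt_pow_succ_log_self (by norm_num) b
    have h2 : a < 2 ^ a := Nat.lt_two_pow_self
    have h3 : a + b < 2 ^ (a + (Nat.log 2 b + 1)) := by
      rw [pow_add]
      have h4 : 1 ≤ 2 ^ a := Nat.one_le_two_pow
      have h5 : (a + 1) * (b + 1) ≤ 2 ^ a * 2 ^ (Nat.log 2 b + 1) := Nat.mul_le_mul h2 h1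
      nlinarith
    have h4 := Nat.log_lt_of_lt_pow (by omega) h3
    omega

/-- `W[1]` is contained in `M[1]`. -/
theorem w1_sub_m1 (O : Oracle) (hO : ∀ L, Good h Q L O)
    (hk : ∀ e, ∃ j, h j = (fun k => (e + 2) * k) ∧ Q j = kHaltS e)
    {P : Set (List Bool × ℕ)} (hP : InW1 O P) : InM1 O P := by
  obtain ⟨e, π, g, R, hπ, hg, hR, hP⟩ := hP
  obtain ⟨j, hj1, hj2⟩ := hk e
  obtain ⟨M, hM⟩ := id hR
  obtain ⟨b, hb⟩ := M.out_length
  obtain ⟨d, _, hd⟩ := Pool.Agent.H622R2.Exp.YAux.poly_bound b
  set G : List Bool → List Bool := fun z => pairBits (pairBits (unpair z).1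
    (List.replicate ((e + 2) * (unpair z).1.length) true)) (unpair z).2 with hG
  have hGp : Poly G := poly_pairBits (poly_pairBits (NPC.Poly.fst poly_unpair)
    (poly_replicate ((UPoly.const (e + 2)).mul (UPoly.length (NPC.Poly.fst poly_unpair))) true))
    (NPC.Poly.snd poly_unpair)
  have hGeq : ∀ (k' : ℕ) (y : List Bool), G (pairBits (List.replicate k' true) y) =
      pairBits (pairBits (List.replicate k' true) (List.replicate (h j k') true)) y := by
    intro k' y
    rw [hG]
    dsimp only
    rw [unpair_pairBits, List.length_replicate, hj1]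
  refine ⟨π, fun k => ((e + 2) * g k + 3) * ((d + 1) * (2 * (π k).length + 6)),
    fun z => RQ O j (G (R z)), hπ, ?_, ?_, fun x k => ?_⟩
  · have h1 : Computable (fun k => (π k).length) := Primrec.list_length.to_comp.comp hπ
    have h2 : Primrec (fun p : ℕ × ℕ => ((e + 2) * p.1 + 3) * ((d + 1) * (2 * p.2 + 6))) :=
      Primrec.nat_mul.comp
        (Primrec.nat_add.comp (Primrec.nat_mul.comp (Primrec.const _) Primrec.fst)
          (Primrec.const _))
        (Primrec.nat_mul.comp (Primrec.const _)
          (Primrec.nat_add.comp (Primrec.nat_mul.comp (Primrec.const _) Primrec.snd)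
            (Primrec.const _)))
    exact h2.to_comp.comp (hg.pair h1)
  · exact IsFP.comp (F := R) (G := fun z => RQ O j (G z))
      (IsFP.comp (F := G) (G := RQ O j) (isFP_RQ O j) (IsFP.of_poly hGp)) hR
  · obtain ⟨y, k', h1, h2, h3⟩ := hP x k
    have h4 : RQ O j (G (R (pairBits (π k) x))) = code h O (j, y, k') := by
      rw [h2, hGeq, RQ_eq]
    beta_reduce
    rw [h4]
    refine ⟨?_, ?_⟩
    · rw [length_code]
      have h5 : y.length ≤ (2 * (π k).length + 3 + x.length) ^ d := by
        have h6 := hb O _ _ (hM (pairBits (π k) x))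
        rw [h2, length_pairBits] at h6
        refine le_trans (by omega) (h6.trans ((hd _).trans (Nat.pow_le_pow_left ?_ d)))
        rw [length_pairBits]
        omega
      have h6 : Nat.log 2 y.length + 1 ≤
          (d + 1) * (2 * (π k).length + 6) * (Nat.log 2 x.length + 1) := by
        have h7 : Nat.log 2 y.length ≤ d * (Nat.log 2 (2 * (π k).length + 3 + x.length) + 1) := by
          refine (Nat.log_mono_right h5).trans ?_
          have h8 : (2 * (π k).length + 3 + x.length) ^ d ≤
              2 ^ (d * (Nat.log 2 (2 * (π k).length + 3 + x.length) + 1)) := by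
            rw [mul_comm d, pow_mul]
            exact Nat.pow_le_pow_left (Nat.lt_pow_succ_log_self (by norm_num) _).le d
          exact (Nat.log_mono_right h8).trans (Nat.log_pow (by norm_num) _).le
        have h8 := log_add_le (2 * (π k).length + 3) x.length
        set ℓ := Nat.log 2 x.length with hℓ
        set a := (π k).length with ha
        have h9 : Nat.log 2 (2 * a + 3 + x.length) + 1 ≤ 2 * a + 5 + ℓ := by omega
        have h10 : d * (Nat.log 2 (2 * a + 3 + x.length) + 1) ≤ d * (2 * a + 5 + ℓ) :=
          Nat.mul_le_mul_left d h9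
        have h11 : 2 * a + 5 + ℓ ≤ (2 * a + 6) * (ℓ + 1) := by nlinarith
        have h12 : d * (2 * a + 5 + ℓ) ≤ d * ((2 * a + 6) * (ℓ + 1)) := Nat.mul_le_mul_left d h11
        have h13 : (d + 1) * (2 * a + 6) * (ℓ + 1) =
            d * ((2 * a + 6) * (ℓ + 1)) + (2 * a + 6) * (ℓ + 1) := by ring
        have h14 : 1 ≤ (2 * a + 6) * (ℓ + 1) := Nat.mul_pos (by omega) (by omega)
        omega
      have h7 : ell h (j, y, k') = (e + 2) * k' * (Nat.log 2 y.length + 1) + 3 := by
        unfold ell
        rw [hj1]
      rw [h7]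
      have h8 : (e + 2) * k' * (Nat.log 2 y.length + 1) + 3 ≤
          ((e + 2) * g k + 3) * (Nat.log 2 y.length + 1) := by
        have h9 : (e + 2) * k' * (Nat.log 2 y.length + 1) ≤
            (e + 2) * g k * (Nat.log 2 y.length + 1) :=
          Nat.mul_le_mul_right _ (Nat.mul_le_mul_left _ h1)
        have h10 : ((e + 2) * g k + 3) * (Nat.log 2 y.length + 1) =
            (e + 2) * g k * (Nat.log 2 y.length + 1) + 3 * (Nat.log 2 y.length + 1) := by ring
        omega
      refine h8.trans ((Nat.mul_le_mul_left _ h6).trans_eq ?_)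
      ring
    · rw [h3, ← hj2]
      exact status O hO j k' y

end Pool.Agent.K6.H3.MW
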