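import Pool.Agent.K6.H3.MW.World
import Pool.Agent.TH678.GC.Core

/-! Codes which an algorithm cannot tell from random strings -/

set_option autoImplicit false

namespace Pool.Agent.K6.H3.MW

open Pool.Agent.NPC Pool.Agent.H620R2.Gauge Pool.Agent.TH678.SQ Pool.Agent.H622R2

/-- the questions of a run -/
def qs (M : Alg) (A : Oracle) (x : List Bool) : ℕ → List Bool → List (List Bool)
  | 0, _ => []
  | n + 1, a =>
    match M.D (pairBits x a) with
    | [] => []
    | true :: _ => []
    | false :: q => q :: qs M A x n (a ++ [A q])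

theorem run_qs (M : Alg) (A A' : Oracle) (x : List Bool) : ∀ (n : ℕ) (a : List Bool),
    (∀ q ∈ qs M A x n a, A' q = A q) → M.run A' x n a = M.run A x n a := by
  intro n
  induction n with
  | zero => intro a _; rfl
  | succ n ih =>
    intro a ha
    rcases hq : M.D (pairBits x a) with _ | ⟨c, q⟩
    · simp only [Alg.run, hq]
    · cases c with
      | true => simp only [Alg.run, hq]
      | false =>
        simp only [qs, hq] at ha
        simp only [Alg.run, hq]
        rw [ha q (List.mem_cons_self ..)]
        exact ih _ fun q' hq' => ha q' (List.mem_cons_of_mem _ hq')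

theorem length_qs (M : Alg) (A : Oracle) (x : List Bool) : ∀ (n : ℕ) (a : List Bool),
    (qs M A x n a).length ≤ n := by
  intro n
  induction n with
  | zero => intro a; simp [qs]
  | succ n ih =>
    intro a
    rcases hq : M.D (pairBits x a) with _ | ⟨c, q⟩
    · simp [qs, hq]
    · cases c with
      | true => simp [qs, hq]
      | false =>
        simp only [qs, hq, List.length_cons]
        have := ih (a ++ [A q])
        omega

/-- there are enough strings -/
theorem exists_str (ℓ : ℕ) (g : List Bool → List Bool) (hg : Function.Injective g)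
    (T : Finset (List Bool)) (hT : T.card < 2 ^ ℓ) :
    ∃ v : List Bool, v.length = ℓ ∧ g v ∉ T := by
  classical
  by_contra hcon
  push Not at hcon
  have h1 := Finset.card_le_card_of_injOn (s := (Finset.univ : Finset (Fin ℓ → Bool)))
    (t := T) (fun f => g (List.ofFn f)) (fun f _ => hcon _ (List.length_ofFn ..))
    (fun f _ f' _ hf => List.ofFn_injective (hg hf))
  rw [Finset.card_univ, Fintype.card_fun, Fintype.card_bool, Fintype.card_fin] at h1
  omega

variable (h : ℕ → ℕ → ℕ) (Q : ℕ → Oracle → Set (List Bool × ℕ)) (O₀ : Oracle) (L τ : ℕ)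

open Classical in
/-- the codes of the long answers -/
noncomputable def DS (ρ : Ins → List Bool) (I : Ins) : Option (List Bool) :=
  if τ < ell h I then some (ρ I) else none

/-- the oracle in which all long codes are given by `ρ` -/
noncomputable def star (ρ : Ins → List Bool) : Oracle :=
  (exists_isW h Q O₀ L (fun v _ => v = List.replicate v.length true) (DS h τ ρ)).choose

theorem star_isW (ρ : Ins → List Bool) : IsW h Q O₀ L
    (fun v _ => v = List.replicate v.length true) (DS h τ ρ) (star h Q O₀ L τ ρ) :=
  (exists_isW h Q O₀ L (fun v _ => v = List.replicate v.length true) (DS h τ ρ)).choose_spec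

variable {h Q O₀ L τ}

theorem DS_none {ρ : Ins → List Bool} {I : Ins} (hI : ell h I ≤ τ) : DS h τ ρ I = none :=
  if_neg (by omega)

theorem star_eq (hQ : ∀ e, Short (h e) (Q e)) {ρ ρ' : Ins → List Bool} {w : List Bool}
    (hw : ∀ I i, i < ell h I → w = cs h I i → τ < ell h I → ρ I = ρ' I) :
    star h Q O₀ L τ ρ w = star h Q O₀ L τ ρ' w := by
  refine (star_isW h Q O₀ L τ ρ).eq_of hQ (star_isW h Q O₀ L τ ρ') (fun _ _ _ => Iff.rfl)
    fun I i hi hc _ => ?_
  by_cases hI : τ < ell h I
  · unfold DS
    rw [if_pos hI, if_pos hI, hw I i hi hc hI]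
    exact ⟨rfl, fun h => absurd h (Option.some_ne_none _)⟩
  · refine ⟨by rw [DS_none (not_lt.1 hI), DS_none (not_lt.1 hI)], fun _ q hq => ?_⟩
    exact agree_short hQ (star_isW h Q O₀ L τ ρ) (star_isW h Q O₀ L τ ρ') (τ := τ)
      (fun _ _ _ => Iff.rfl) (fun _ _ _ => Iff.rfl) (fun _ => DS_none) (fun _ => DS_none)
      q.length q rfl (by omega)

/-- the codes have the right form -/
def Fine (h : ℕ → ℕ → ℕ) (τ : ℕ) (ρ : Ins → List Bool) : Prop :=
  ∀ I, τ < ell h I → (ρ I).length = ell h I ∧ ∃ v, ρ I = false :: true :: v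

/-- the instances about which questions are asked -/
def touched (h : ℕ → ℕ → ℕ) (τ : ℕ) (l : List (List Bool)) : Set Ins :=
  {I | τ < ell h I ∧ ∃ i < ell h I, cs h I i ∈ l}

theorem adapt (hQ : ∀ e, Short (h e) (Q e)) (M : Alg) (x : List Bool) : ∀ (n : ℕ) (a : List Bool)
    (T : Finset Ins) (ρ : Ins → List Bool), Fine h τ ρ → Set.InjOn ρ T →
    T.card + n < 2 ^ (τ - 1) → ∃ ρ' : Ins → List Bool, Fine h τ ρ' ∧ (∀ I ∈ T, ρ' I = ρ I) ∧
      Set.InjOn ρ' (↑T ∪ touched h τ (qs M (star h Q O₀ L τ ρ') x n a)) := by
  classical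
  intro n
  induction n with
  | zero =>
    intro a T ρ hρ hinj _
    refine ⟨ρ, hρ, fun _ _ => rfl, ?_⟩
    have h1 : touched h τ (qs M (star h Q O₀ L τ ρ) x 0 a) = ∅ := by
      ext I
      simp [touched, qs]
    rw [h1, Set.union_empty]
    exact hinj
  | succ n ih =>
    intro a T ρ hρ hinj hcard
    rcases hq : M.D (pairBits x a) with _ | ⟨c, q⟩
    · refine ⟨ρ, hρ, fun _ _ => rfl, ?_⟩
      have h1 : touched h τ (qs M (star h Q O₀ L τ ρ) x (n + 1) a) = ∅ := by
        ext I
        simp [touched, qs, hq]
      rw [h1, Set.union_empty]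
      exact hinj
    cases c with
    | true =>
      refine ⟨ρ, hρ, fun _ _ => rfl, ?_⟩
      have h1 : touched h τ (qs M (star h Q O₀ L τ ρ) x (n + 1) a) = ∅ := by
        ext I
        simp [touched, qs, hq]
      rw [h1, Set.union_empty]
      exact hinj
    | false =>
      by_cases hex : ∃ I i, i < ell h I ∧ q = cs h I i ∧ τ < ell h I ∧ I ∉ T
      · obtain ⟨I, i, hi, hc, hI, hIT⟩ := hex
        obtain ⟨v, hv1, hv2⟩ := exists_str (ell h I - 2) (fun v => false :: true :: v)
          (fun v v' hv => (List.cons.inj (List.cons.inj hv).2).2) (T.image ρ) (by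
            refine lt_of_le_of_lt Finset.card_image_le (lt_of_lt_of_le
              (lt_of_le_of_lt (Nat.le_add_right _ _) hcard)
              (Nat.pow_le_pow_right (by norm_num) (by omega))))
        have h3 : 3 ≤ ell h I := by unfold ell; omega
        set ρ₁ : Ins → List Bool := Function.update ρ I (false :: true :: v) with hρ₁
        have h4 : ρ₁ I = false :: true :: v := by rw [hρ₁, Function.update_self]
        have h5 : ∀ J, J ≠ I → ρ₁ J = ρ J := fun J hJ => by
          rw [hρ₁, Function.update_of_ne hJ]
        have hfine : Fine h τ ρ₁ := by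
          intro J hJ
          by_cases hJI : J = I
          · subst hJI
            rw [h4]
            refine ⟨?_, v, rfl⟩
            rw [List.length_cons, List.length_cons, hv1]
            omega
          · rw [h5 J hJI]
            exact hρ J hJ
        have hinj₁ : Set.InjOn ρ₁ (insert I T : Finset Ins) := by
          rw [Finset.coe_insert, Set.injOn_insert (by simpa using hIT)]
          constructor
          · intro J hJ J' hJ' hJJ
            rw [h5 J (by rintro rfl; exact hIT hJ), h5 J' (by rintro rfl; exact hIT hJ')] at hJJ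
            exact hinj hJ hJ' hJJ
          · rintro ⟨J, hJ, hJJ⟩
            have hJI : J ≠ I := by rintro rfl; exact hIT hJ
            rw [h5 J hJI, h4] at hJJ
            exact hv2 (Finset.mem_image.2 ⟨J, hJ, hJJ⟩)
        obtain ⟨ρ', g1, g2, g3⟩ := ih (a ++ [star h Q O₀ L τ ρ₁ q]) (insert I T) ρ₁ hfine hinj₁
          (by rw [Finset.card_insert_of_notMem hIT]; omega)
        have g4 : star h Q O₀ L τ ρ' q = star h Q O₀ L τ ρ₁ q := by
          refine star_eq hQ fun J j _ hJ _ => ?_
          rw [hc] at hJ
          rw [← (cs_inj h hJ).1]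
          exact g2 I (Finset.mem_insert_self ..)
        refine ⟨ρ', g1, fun J hJ => ?_, g3.mono ?_⟩
        · rw [g2 J (Finset.mem_insert_of_mem hJ), h5 J (by rintro rfl; exact hIT hJ)]
        · rintro J (hJ | ⟨hJ1, j, hj, hJ2⟩)
          · left
            rw [Finset.coe_insert]
            exact Set.mem_insert_of_mem _ hJ
          · simp only [qs, hq, List.mem_cons] at hJ2
            rcases hJ2 with hJ2 | hJ2
            · left
              rw [hc] at hJ2
              rw [(cs_inj h hJ2).1]
              exact Finset.mem_coe.2 (Finset.mem_insert_self ..)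
            · right
              rw [g4] at hJ2
              exact ⟨hJ1, j, hj, hJ2⟩
      · push Not at hex
        obtain ⟨ρ', g1, g2, g3⟩ := ih (a ++ [star h Q O₀ L τ ρ q]) T ρ hρ hinj (by omega)
        have g4 : star h Q O₀ L τ ρ' q = star h Q O₀ L τ ρ q := by
          refine star_eq hQ fun J j hj hJ hτ => ?_
          exact g2 J (hex J j hj hJ hτ)
        refine ⟨ρ', g1, g2, g3.mono ?_⟩
        rintro J (hJ | ⟨hJ1, j, hj, hJ2⟩)
        · exact Or.inl hJ
        · simp only [qs, hq, List.mem_cons] at hJ2
          rcases hJ2 with hJ2 | hJ2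
          · exact Or.inl (Finset.mem_coe.2 (hex J j hj hJ2.symm hJ1))
          · right
            rw [g4] at hJ2
            exact ⟨hJ1, j, hj, hJ2⟩

end Pool.Agent.K6.H3.MW
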