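import Pool.Agent.K6.H3.MW.Base

/-! Oracles with prescribed codes of some answers -/

set_option autoImplicit false

namespace Pool.Agent.K6.H3.MW

open Pool.Agent.NPC Pool.Agent.H620R2.Gauge Pool.Agent.TH678.SQ Pool.Agent.H622R2

variable (h : ℕ → ℕ → ℕ) (Q : ℕ → Oracle → Set (List Bool × ℕ))

open Classical in
/-- the values in terms of the values for shorter strings -/
noncomputable def F (O₀ : Oracle) (L : ℕ) (S : List Bool → Oracle → Prop)
    (D : Ins → Option (List Bool)) (w : List Bool) (B : Oracle) : Bool :=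
  if w.length ≤ L then O₀ w
  else match w with
  | [] => false
  | false :: v => decide (S v B)
  | true :: v => if hw : ∃ p : Ins × ℕ, p.2 < ell h p.1 ∧ true :: v = cs h p.1 p.2 then
      ((D hw.choose.1).getD (pickS (cand B (ell h hw.choose.1) (Tr Q B hw.choose.1)))).getD
        hw.choose.2 false
    else false

/-- `W` is the oracle given by the data. -/
def IsW (O₀ : Oracle) (L : ℕ) (S : List Bool → Oracle → Prop) (D : Ins → Option (List Bool))
    (W : Oracle) : Prop := ∀ w, W w = F h Q O₀ L S D w (cut W w.length)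

theorem exists_isW (O₀ : Oracle) (L : ℕ) (S : List Bool → Oracle → Prop)
    (D : Ins → Option (List Bool)) : ∃ W, IsW h Q O₀ L S D W := exists_self _

section
variable {h Q} {O₀ : Oracle} {L : ℕ} {S : List Bool → Oracle → Prop}
  {D : Ins → Option (List Bool)} {W : Oracle}

theorem IsW.low (hW : IsW h Q O₀ L S D W) {w : List Bool} (hw : w.length ≤ L) : W w = O₀ w := by
  rw [hW w]
  unfold F
  rw [if_pos hw]

theorem IsW.stat (hW : IsW h Q O₀ L S D W) {v : List Bool} (hv : L < v.length + 1) :
    W (false :: v) = true ↔ S v (cut W (v.length + 1)) := by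
  rw [hW (false :: v)]
  unfold F
  rw [if_neg (by rw [List.length_cons]; omega)]
  simp only [decide_eq_true_eq, List.length_cons]

theorem cut_eq {B : Oracle} {m : ℕ} {q : List Bool} (hq : q.length < m) : cut B m q = B q := by
  unfold cut
  rw [if_pos hq]

open Classical in
theorem IsW.codeBit (hQ : ∀ e, Short (h e) (Q e)) (hW : IsW h Q O₀ L S D W) {I : Ins} {i : ℕ}
    (hi : i < ell h I) (hL : L < lam h I) :
    W (cs h I i) = ((D I).getD (pickS (cand W (ell h I) (Tr Q W I)))).getD i false := by
  rw [hW (cs h I i)]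
  have hlen : (cs h I i).length = lam h I := length_cs h hi.le
  unfold F
  rw [if_neg (by rw [hlen]; omega)]
  have hex : ∃ p : Ins × ℕ, p.2 < ell h p.1 ∧ cs h I i = cs h p.1 p.2 := ⟨(I, i), hi, rfl⟩
  have hp : hex.choose = (I, i) := by
    have h1 := cs_inj h hex.choose_spec.2
    exact Prod.ext h1.1.symm h1.2.symm
  have h2 := ell_lt_lam h I
  have e1 : cand (cut W (cs h I i).length) (ell h I) (Tr Q (cut W (cs h I i).length) I) =
      cand W (ell h I) (Tr Q W I) := by
    refine cand_congr (fun q hq => cut_eq (by rw [hlen, hq]; exact h2)) (tr_congr hQ fun q hq =>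
      cut_eq (by rw [hlen]; omega))
  show (if hw : ∃ p : Ins × ℕ, p.2 < ell h p.1 ∧ cs h I i = cs h p.1 p.2 then
      ((D hw.choose.1).getD (pickS (cand (cut W (cs h I i).length) (ell h hw.choose.1)
        (Tr Q (cut W (cs h I i).length) hw.choose.1)))).getD hw.choose.2 false
    else false) = _
  rw [dif_pos hex, hp, e1]

open Classical in
theorem IsW.other (hW : IsW h Q O₀ L S D W) {v : List Bool} (hv : L < v.length + 1)
    (hno : ¬ ∃ p : Ins × ℕ, p.2 < ell h p.1 ∧ true :: v = cs h p.1 p.2) :
    W (true :: v) = false := by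
  rw [hW (true :: v)]
  unfold F
  rw [if_neg (by rw [List.length_cons]; omega)]
  show (if hw : ∃ p : Ins × ℕ, p.2 < ell h p.1 ∧ true :: v = cs h p.1 p.2 then _ else false) = _
  rw [dif_neg hno]

/-- the codes of the answers in `W` -/
theorem IsW.code_eq (hQ : ∀ e, Short (h e) (Q e)) (hW : IsW h Q O₀ L S D W) {I : Ins}
    (hL : L < lam h I) {z : List Bool}
    (hz : (D I).getD (pickS (cand W (ell h I) (Tr Q W I))) = z) (hzl : z.length = ell h I) :
    code h W I = z := by
  unfold code
  apply List.ext_getElem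
  · simp [hzl]
  · intro i h1 h2
    rw [List.getElem_map, List.getElem_range, hW.codeBit hQ (by omega) hL, hz,
      List.getD_eq_getElem _ _ h2]

theorem IsW.eq_of (hQ : ∀ e, Short (h e) (Q e)) (hW : IsW h Q O₀ L S D W)
    {S' : List Bool → Oracle → Prop} {D' : Ins → Option (List Bool)} {W' : Oracle}
    (hW' : IsW h Q O₀ L S' D' W') {w : List Bool}
    (hS : ∀ v, w = false :: v → L < w.length →
      (S v (cut W w.length) ↔ S' v (cut W' w.length)))
    (hD : ∀ I i, i < ell h I → w = cs h I i → L < w.length → D I = D' I ∧ (D I = none →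
      ∀ q : List Bool, q.length ≤ 2 * ell h I + 1 → W q = W' q)) : W w = W' w := by
  by_cases hL : w.length ≤ L
  · rw [hW.low hL, hW'.low hL]
  rcases w with _ | ⟨c, v⟩
  · rw [hW [], hW' []]
    rfl
  cases c with
  | false =>
    rw [Bool.eq_iff_iff, hW.stat (by simpa using hL), hW'.stat (by simpa using hL)]
    simpa using hS v rfl (not_le.1 hL)
  | true =>
    by_cases hex : ∃ p : Ins × ℕ, p.2 < ell h p.1 ∧ true :: v = cs h p.1 p.2
    · obtain ⟨⟨I, i⟩, hi, hc⟩ := hex
      dsimp only at hi hc
      obtain ⟨h1, h2⟩ := hD I i hi hc (not_le.1 hL)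
      have hlen : (true :: v).length = lam h I := by rw [hc, length_cs h hi.le]
      rw [hc, hW.codeBit hQ hi (by omega), hW'.codeBit hQ hi (by omega), ← h1]
      rcases hDI : D I with _ | ρ
      · have h3 := h2 hDI
        rw [cand_congr (fun q hq => h3 q hq.le) (tr_congr hQ fun q hq => h3 q (by omega))]
      · rfl
    · rw [hW.other (by simpa using hL) hex, hW'.other (by simpa using hL) hex]

/-- Two such oracles agree on the short strings. -/
theorem agree_short (hQ : ∀ e, Short (h e) (Q e)) {τ : ℕ} (hW : IsW h Q O₀ L S D W)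
    {S' : List Bool → Oracle → Prop} {D' : Ins → Option (List Bool)} {W' : Oracle}
    (hW' : IsW h Q O₀ L S' D' W')
    (hS : ∀ v B, v.length ≤ 2 * τ → (S v B ↔ v = List.replicate v.length true))
    (hS' : ∀ v B, v.length ≤ 2 * τ → (S' v B ↔ v = List.replicate v.length true))
    (hD : ∀ I, ell h I ≤ τ → D I = none) (hD' : ∀ I, ell h I ≤ τ → D' I = none) :
    ∀ (n : ℕ) (w : List Bool), w.length = n → n ≤ 2 * τ + 1 → W w = W' w := by
  intro n
  induction n using Nat.strong_induction_on with
  | _ n ih =>
    intro w hn hτ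
    refine hW.eq_of hQ hW' (fun v hv _ => ?_) (fun I i hi hc _ => ?_)
    · subst hv
      rw [List.length_cons] at hn
      rw [hS v _ (by omega), hS' v _ (by omega)]
    · have h1 : lam h I = n := by rw [← hn, hc, length_cs h hi.le]
      have h2 := ell_lt_lam h I
      refine ⟨by rw [hD I (by omega), hD' I (by omega)], fun _ q hq => ?_⟩
      exact ih q.length (by omega) q rfl (by omega)

end

/-- the data of the final oracles -/
structure Data (O₀ : Oracle) (L : ℕ) (hit : List Bool → Prop) (D : Ins → Option (List Bool))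
    (y : Ins → List Bool) : Prop where
  len : ∀ J ρ, D J = some ρ → ρ.length = ell h J ∧ (y J).length = ell h J ∧
    L < 2 * ell h J + 1 ∧ ∃ ρ', ρ = false :: true :: ρ'
  inj : ∀ J J' ρ, D J = some ρ → D J' = some ρ → J = J'
  hit : ∀ v, hit v → ∃ v', v = true :: v'

/-- the strings in the final oracles -/
def SF (hit : List Bool → Prop) (D : Ins → Option (List Bool)) (y : Ins → List Bool)
    (v : List Bool) (B : Oracle) : Prop :=
  v = List.replicate v.length true ∨ hit v ∨ ∃ J ρ, D J = some ρ ∧ v = ρ ++ y J ∧ Tr Q B J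

section
variable {h Q} {O₀ : Oracle} {L : ℕ} {hit : List Bool → Prop} {D : Ins → Option (List Bool)}
  {y : Ins → List Bool} {W : Oracle}

theorem good_final (hQ : ∀ e, Short (h e) (Q e)) (h0 : Good h Q L O₀)
    (hd : Data h O₀ L hit D y) (hW : IsW h Q O₀ L (SF Q hit D y) D W) (L' : ℕ) :
    Good h Q L' W := by
  have hlow : Good h Q L W := good_congr hQ (fun q hq => (hW.low hq).symm) h0
  have hboth : ∀ ℓ, 3 ≤ ℓ → Both W ℓ := by
    intro ℓ h3
    by_cases hL : 2 * ℓ + 1 ≤ L
    · exact hlow.both ℓ h3 hL
    push Not at hL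
    intro P
    by_cases hP : P
    · refine ⟨List.replicate ℓ true, List.length_replicate .., ?_⟩
      refine iff_of_true ⟨List.replicate ℓ true, by simp, ?_⟩ hP
      rw [hW.stat (by simp; omega)]
      left
      rw [List.length_append, List.length_replicate, ← List.replicate_add]
    · refine ⟨List.replicate ℓ false, List.length_replicate .., ?_⟩
      refine iff_of_false ?_ hP
      rintro ⟨u, hu, h1⟩
      rw [List.length_replicate] at hu
      rw [hW.stat (by simp; omega)] at h1
      obtain ⟨ℓ', rfl⟩ : ∃ ℓ', ℓ = ℓ' + 2 := ⟨ℓ - 2, by omega⟩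
      rw [List.replicate_succ, List.replicate_succ] at h1
      rcases h1 with h1 | h1 | ⟨J, ρ, h2, h3, _⟩
      · rw [List.cons_append, List.length_cons, List.replicate_succ, List.cons.injEq] at h1
        exact Bool.false_ne_true h1.1
      · obtain ⟨v', hv'⟩ := hd.hit _ h1
        rw [List.cons_append, List.cons.injEq] at hv'
        exact Bool.false_ne_true hv'.1
      · obtain ⟨_, _, _, ρ', hρ'⟩ := hd.len J ρ h2
        rw [hρ', List.cons_append, List.cons_append, List.cons_append, List.cons_append,
          List.cons.injEq, List.cons.injEq] at h3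
        exact Bool.false_ne_true h3.2.1
  refine ⟨fun ℓ h3 _ => hboth ℓ h3, fun I _ => ?_⟩
  by_cases hL : lam h I ≤ L
  · exact hlow.right I hL
  push Not at hL
  rcases hDI : D I with _ | ρ
  · set z := pickS (cand W (ell h I) (Tr Q W I)) with hz
    have h1 : z ∈ cand W (ell h I) (Tr Q W I) :=
      pickS_mem (hboth _ (by unfold ell; omega) _)
    rw [hW.code_eq hQ hL (z := z) (by rw [hDI]; rfl) h1.1]
    exact h1.2
  · obtain ⟨h1, h2, h3, ρ', h4⟩ := hd.len I ρ hDI
    rw [hW.code_eq hQ hL (z := ρ) (by rw [hDI]; rfl) h1]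
    have hcut : ∀ v : List Bool, v.length = 2 * ell h I →
        (Tr Q (cut W (v.length + 1)) I ↔ Tr Q W I) := fun v hv =>
      tr_congr hQ fun q hq => cut_eq (by omega)
    constructor
    · rintro ⟨u, hu, h5⟩
      have hlen : (ρ ++ u).length = 2 * ell h I := by rw [List.length_append, hu, h1]; ring
      rw [hW.stat (by omega)] at h5
      rcases h5 with h5 | h5 | ⟨J, ρJ, h6, h7, h8⟩
      · exfalso
        rw [hlen, h4, List.cons_append] at h5
        have h9 : 2 * ell h I = (2 * ell h I - 1) + 1 := by
          have : 3 ≤ ell h I := by unfold ell; omega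
          omega
        rw [h9, List.replicate_succ, List.cons.injEq] at h5
        exact Bool.false_ne_true h5.1
      · exfalso
        obtain ⟨v', hv'⟩ := hd.hit _ h5
        rw [h4, List.cons_append, List.cons.injEq] at hv'
        exact Bool.false_ne_true hv'.1
      · obtain ⟨g1, g2, _, _⟩ := hd.len J ρJ h6
        have g3 := congrArg List.length h7
        rw [hlen, List.length_append, g1, g2] at g3
        have g4 : ρ.length = ρJ.length := by omega
        have g5 := (List.append_inj h7 g4).1
        have g6 := hd.inj I J ρ hDI (by rw [h6, g5])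
        subst g6
        exact (hcut _ hlen).1 h8
    · intro h5
      have hlen : (ρ ++ y I).length = 2 * ell h I := by rw [List.length_append, h2, h1]; ring
      refine ⟨y I, by rw [h2, h1], ?_⟩
      rw [hW.stat (by omega)]
      exact Or.inr (Or.inr ⟨I, ρ, hDI, rfl, (hcut _ hlen).2 h5⟩)

end

end Pool.Agent.K6.H3.MW
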